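import Pool.Agent.Helper66.HK.Stmts

set_option autoImplicit false

namespace Pool.Agent.Helper72.HK

open Finset Pool.Agent.Helper69.RK Pool.Agent.Helper66.HK

section calc0

variable {Ω α β γ δ α' γ' : Type} [Fintype Ω] {μ : Ω → ℝ}

theorem nonneg (h1 : ST_E1) (hμ : ∀ ω, 0 ≤ μ ω) (f : Ω → α) (g : Ω → γ) : 0 ≤ CH μ f g :=
  (h1 Ω α Unit γ μ f (fun _ => ()) g hμ).1

theorem chain (h1 : ST_E1) (hμ : ∀ ω, 0 ≤ μ ω) (f : Ω → α) (h : Ω → β) (g : Ω → γ) :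
    CH μ (fun ω => (f ω, h ω)) g = CH μ f g + CH μ h (fun ω => (f ω, g ω)) :=
  (h1 Ω α β γ μ f h g hμ).2.1

theorem cond (h2 : ST_E2) (hμ : ∀ ω, 0 ≤ μ ω) (f : Ω → α) (g : Ω → γ) (g' : Ω → γ')
    (hd : Dep μ g' g) : CH μ f g' ≤ CH μ f g :=
  h2.2.1 Ω α γ γ' μ f g g' hμ hd

theorem condeq (h2 : ST_E2) (hμ : ∀ ω, 0 ≤ μ ω) (f : Ω → α) (g : Ω → γ) (g' : Ω → γ')
    (hd : Dep μ g' g) (hd' : Dep μ g g') : CH μ f g' = CH μ f g :=
  le_antisymm (cond h2 hμ f g g' hd) (cond h2 hμ f g' g hd')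

theorem dep (h2 : ST_E2) (hμ : ∀ ω, 0 ≤ μ ω) (f : Ω → α) (f' : Ω → α') (g : Ω → γ)
    (hd : Dep μ (fun ω => (f' ω, g ω)) f) : CH μ f g ≤ CH μ f' g :=
  h2.1 Ω α α' γ μ f f' g hμ hd

theorem swap (h1 : ST_E1) (h2 : ST_E2) (hμ : ∀ ω, 0 ≤ μ ω) (f : Ω → α) (h : Ω → β) (g : Ω → γ) :
    CH μ f g + CH μ h (fun ω => (f ω, g ω)) = CH μ h g + CH μ f (fun ω => (h ω, g ω)) := by
  rw [← chain h1 hμ f h g, ← chain h1 hμ h f g]
  apply le_antisymm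
  · apply dep h2 hμ
    intro ω ω' _ _ e
    simp only [Prod.mk.injEq] at e ⊢
    tauto
  · apply dep h2 hμ
    intro ω ω' _ _ e
    simp only [Prod.mk.injEq] at e ⊢
    tauto

theorem mi_symm (h1 : ST_E1) (h2 : ST_E2) (hμ : ∀ ω, 0 ≤ μ ω) (f : Ω → α) (h : Ω → β) (g : Ω → γ) :
    MI μ f h g = CH μ h g - CH μ h (fun ω => (f ω, g ω)) := by
  have := swap h1 h2 hμ f h g
  unfold MI
  linarith

theorem mi_nonneg (h1 : ST_E1) (hμ : ∀ ω, 0 ≤ μ ω) (f : Ω → α) (h : Ω → β) (g : Ω → γ) :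
    0 ≤ MI μ f h g := by
  have := (h1 Ω α β γ μ f h g hμ).2.2
  unfold MI
  linarith

theorem mi_le (h1 : ST_E1) (h2 : ST_E2) (hμ : ∀ ω, 0 ≤ μ ω) (f : Ω → α) (h : Ω → β) (g : Ω → γ) :
    MI μ f h g ≤ CH μ h g := by
  rw [mi_symm h1 h2 hμ]
  have := nonneg h1 hμ h (fun ω => (f ω, g ω))
  linarith

theorem mi_mono (h2 : ST_E2) (hμ : ∀ ω, 0 ≤ μ ω) (f : Ω → α) (h : Ω → β) (h' : Ω → δ)
    (g : Ω → γ) (hd : Dep μ (fun ω => (h' ω, g ω)) h) : MI μ f h g ≤ MI μ f h' g := by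
  have : CH μ f (fun ω => (h' ω, g ω)) ≤ CH μ f (fun ω => (h ω, g ω)) := by
    apply cond h2 hμ
    intro ω ω' a1 a2 e
    have e1 := hd ω ω' a1 a2 e
    simp only [Prod.mk.injEq] at e ⊢
    exact ⟨e1, e.2⟩
  unfold MI
  linarith

theorem mi_chain (h2 : ST_E2) (hμ : ∀ ω, 0 ≤ μ ω) (f : Ω → α) (h : Ω → β) (h' : Ω → δ)
    (g : Ω → γ) :
    MI μ f (fun ω => (h ω, h' ω)) g = MI μ f h g + MI μ f h' (fun ω => (h ω, g ω)) := by
  have : CH μ f (fun ω => ((h ω, h' ω), g ω)) = CH μ f (fun ω => (h' ω, (h ω, g ω))) := by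
    apply condeq h2 hμ
    · intro ω ω' _ _ e
      simp only [Prod.mk.injEq] at e ⊢
      tauto
    · intro ω ω' _ _ e
      simp only [Prod.mk.injEq] at e ⊢
      tauto
  unfold MI
  linarith

theorem mi_fun (h1 : ST_E1) (h2 : ST_E2) (hμ : ∀ ω, 0 ≤ μ ω) (X : Ω → α) (f : Ω → β) (R : Ω → δ)
    (g : Ω → γ) (hd : Dep μ X f) : MI μ X R (fun ω => (f ω, g ω)) ≤ MI μ X R g := by
  have key : ∀ (ρ : Type) (r : Ω → ρ), CH μ X r = CH μ f r + CH μ X (fun ω => (f ω, r ω)) := by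
    intro ρ r
    rw [← chain h1 hμ f X r]
    apply le_antisymm
    · apply dep h2 hμ
      intro ω ω' _ _ e
      simp only [Prod.mk.injEq] at e
      exact e.1.2
    · apply dep h2 hμ
      intro ω ω' a1 a2 e
      simp only [Prod.mk.injEq] at e ⊢
      exact ⟨hd ω ω' a1 a2 e.1, e.1⟩
  have k1 := key γ g
  have k2 := key (δ × γ) (fun ω => (R ω, g ω))
  have k3 : CH μ X (fun ω => (f ω, (R ω, g ω))) = CH μ X (fun ω => (R ω, (f ω, g ω))) := by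
    apply condeq h2 hμ
    · intro ω ω' _ _ e
      simp only [Prod.mk.injEq] at e ⊢
      tauto
    · intro ω ω' _ _ e
      simp only [Prod.mk.injEq] at e ⊢
      tauto
  have k4 := (h1 Ω β δ γ μ f R g hμ).2.2
  unfold MI
  linarith

theorem mi_condeq (h2 : ST_E2) (hμ : ∀ ω, 0 ≤ μ ω) (f : Ω → α) (h : Ω → β) (g : Ω → γ)
    (g' : Ω → γ') (hd : Dep μ g' g) (hd' : Dep μ g g') : MI μ f h g' = MI μ f h g := by
  unfold MI
  rw [condeq h2 hμ f g g' hd hd']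
  rw [condeq h2 hμ f (fun ω => (h ω, g ω)) (fun ω => (h ω, g' ω))]
  · intro ω ω' a1 a2 e
    simp only [Prod.mk.injEq] at e ⊢
    exact ⟨e.1, hd ω ω' a1 a2 e.2⟩
  · intro ω ω' a1 a2 e
    simp only [Prod.mk.injEq] at e ⊢
    exact ⟨e.1, hd' ω ω' a1 a2 e.2⟩

theorem pair_le (h1 : ST_E1) (hμ : ∀ ω, 0 ≤ μ ω) (f : Ω → α) (h : Ω → β) (g : Ω → γ) :
    CH μ (fun ω => (f ω, h ω)) g ≤ CH μ f g + CH μ h g := by
  rw [chain h1 hμ f h g]
  have := (h1 Ω β α γ μ h f g hμ).2.2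
  linarith

end calc0

theorem ch_push (h5 : ST_E5) {Ω Ω' α γ : Type} [Fintype Ω] [Fintype Ω'] (μ : Ω → ℝ) (μ' : Ω' → ℝ)
    (π : Ω' → Ω) (hμ' : ∀ w, 0 ≤ μ' w) (hp : push π μ' = μ) (f : Ω → α) (g : Ω → γ) :
    CH μ' (fun w => f (π w)) (fun w => g (π w)) = CH μ f g := by
  rw [← hp]
  exact ((h5.1 Ω Ω' α γ μ' π f g hμ').2.2).symm

theorem mi_push (h5 : ST_E5) {Ω Ω' α β γ : Type} [Fintype Ω] [Fintype Ω'] (μ : Ω → ℝ) (μ' : Ω' → ℝ)
    (π : Ω' → Ω) (hμ' : ∀ w, 0 ≤ μ' w) (hp : push π μ' = μ) (f : Ω → α) (h : Ω → β) (g : Ω → γ) :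
    MI μ' (fun w => f (π w)) (fun w => h (π w)) (fun w => g (π w)) = MI μ f h g := by
  unfold MI
  rw [ch_push h5 μ μ' π hμ' hp f g, ← ch_push h5 μ μ' π hμ' hp f (fun ω => (h ω, g ω))]

theorem hs_push (h5 : ST_E5) {Ω Ω' ζ : Type} [Fintype Ω] [Fintype Ω'] (m n : ℕ) (η : ℝ)
    (μ : Ω → ℝ) (μ' : Ω' → ℝ) (π : Ω' → Ω) (hμ' : ∀ w, 0 ≤ μ' w) (hp : push π μ' = μ)
    (Z : Ω → ζ) (a x : Ω → Fin m → ℝ) (t : Ω → ℝ) (h : HS m n η μ Z a x t) :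
    HS m n η μ' (fun w => Z (π w)) (fun w => a (π w)) (fun w => x (π w)) (fun w => t (π w)) where
  nn := hμ'
  ms := by
    have := (h5.1 Ω Ω' Unit Unit μ' π (fun _ => ()) (fun _ => ()) hμ').2.1
    rw [← this, hp]
    exact h.ms
  ab := fun w i => h.ab (π w) i
  xb := fun w i => h.xb (π w) i
  tb := fun w => h.tb (π w)
  st := by
    intro k hk
    have e := mi_push h5 μ μ' π hμ' hp (fun ω => cel n (x ω)) (fun ω => cel k (a ω))
      (fun ω => (cel k (x ω), Z ω))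
    rw [e]
    exact h.st k hk
  h1 := by
    have e := ch_push h5 μ μ' π hμ' hp (fun ω => hn n (t ω)) (fun ω => ((a ω, x ω), Z ω))
    rw [e]
    exact h.h1
  h2 := by
    have e := mi_push h5 μ μ' π hμ' hp (fun ω => (a ω, x ω)) t Z
    rw [e]
    exact h.h2

theorem hs_mono {Ω ζ : Type} [Fintype Ω] (m n : ℕ) (η η' : ℝ) (hη : η ≤ η')
    (μ : Ω → ℝ) (Z : Ω → ζ) (a x : Ω → Fin m → ℝ) (t : Ω → ℝ) (h : HS m n η μ Z a x t) :
    HS m n η' μ Z a x t where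
  nn := h.nn
  ms := h.ms
  ab := h.ab
  xb := h.xb
  tb := h.tb
  st := fun k hk => (h.st k hk).trans (mul_le_mul_of_nonneg_right hη (Nat.cast_nonneg _))
  h1 := by
    refine le_trans ?_ h.h1
    apply mul_le_mul_of_nonneg_right _ (Nat.cast_nonneg _)
    linarith
  h2 := h.h2.trans (mul_le_mul_of_nonneg_right hη (Nat.cast_nonneg _))

theorem core (h1 : ST_E1) (h2 : ST_E2) (h5 : ST_E5) (hCPL : ST_CPL) (hFLO : ST_FLO)
    (m n l w : ℕ) (γ η ηN s B : ℝ) (Ω ζ κ : Type) [Fintype Ω] (μ : Ω → ℝ) (Z : Ω → ζ) (Q : Ω → κ)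
    (a x : Ω → Fin m → ℝ) (t t' : Ω → ℝ) (Λ Λ' : Ω → Fin m → ℤ) (hJ : l + w ≤ n)
    (H : TT m n w γ η μ Z Q a x t t' Λ Λ')
    (eU : CH μ (fun ω => dv (n - (l + w)) (Yn n (t ω) (a ω) (x ω) (Λ ω)))
        (fun ω => (dv (n - l) (Yn n (t ω) (a ω) (x ω) (Λ ω)), Q ω, Z ω)) ≤
      CH μ (fun ω => cel (l + w) (x ω)) (fun ω => (cel l (x ω), Z ω)) - γ * w + s)
    (eV : CH μ (fun ω => dv (n - (l + w)) (Yn n (t' ω) (a ω) (x ω) (Λ' ω)))
        (fun ω => (dv (n - l) (Yn n (t' ω) (a ω) (x ω) (Λ' ω)), Q ω, Z ω)) ≤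
      CH μ (fun ω => cel (l + w) (x ω)) (fun ω => (cel l (x ω), Z ω)) - γ * w + s)
    (eL : CH μ (fun ω => cel (l + w) (x ω)) (fun ω => (cel l (x ω), Z ω)) - γ * w - s ≤
      CH μ (fun ω => dv (n - (l + w)) (Yn n (t ω) (a ω) (x ω) (Λ ω)))
        (fun ω => ((Q ω, Λ ω, Λ' ω), xi l (a ω) (x ω), Z ω)))
    (hη : η ≤ ηN) (n1 : η * n + 10 * m + (2 * s + 10 * m) ≤ ηN * n) (n2 : s + m ≤ ηN * n)
    (hW : ∀ (Ω ζ θ : Type) [Fintype Ω] (μ : Ω → ℝ) (Z : Ω → ζ) (a x : Ω → Fin m → ℝ) (t : Ω → ℝ)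
      (Θ : Ω → θ) (A : Ω → Fin m → ℤ), HS m n ηN μ Z a x t →
      MI μ (fun ω => (a ω, x ω)) (fun ω => (Θ ω, A ω)) (fun ω => (t ω, xi l (a ω) (x ω), Z ω)) ≤
        ηN * n →
      CH μ (fun ω => Yn (l + w) (t ω) (a ω) (x ω) (A ω))
        (fun ω => (Θ ω, t ω, xi l (a ω) (x ω), Z ω)) ≤
        CH μ (fun ω => cel (l + w) (x ω)) (fun ω => (cel l (x ω), Z ω)) - γ * w + ηN * n →
      CH μ A (fun ω => (Θ ω, t ω, xi l (a ω) (x ω), Z ω)) ≤ B) :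
    CH μ (fun ω => dv (n - (l + w)) (Yn n (t' ω) (a ω) (x ω) (Λ' ω)))
        (fun ω => (dv (n - (l + w)) (Yn n (t ω) (a ω) (x ω) (Λ ω)),
          (dv (n - l) (Yn n (t ω) (a ω) (x ω) (Λ ω)),
            dv (n - l) (Yn n (t' ω) (a ω) (x ω) (Λ' ω))), Q ω, Z ω)) ≤ B + (2 * s + 10 * m) := by
  have hμ := H.s.nn
  have hdt : ∀ ω ω', μ ω ≠ 0 → μ ω' ≠ 0 → Q ω = Q ω' → t ω = t ω' ∧ t' ω = t' ω' := by
    intro ω ω' a1 a2 e
    have := H.d ω ω' a1 a2 e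
    simpa only [Prod.mk.injEq] using this
  obtain ⟨U, hU⟩ : ∃ U : Ω → Fin m → ℤ,
    U = fun ω => dv (n - (l + w)) (Yn n (t ω) (a ω) (x ω) (Λ ω)) := ⟨_, rfl⟩
  obtain ⟨V, hV⟩ : ∃ V : Ω → Fin m → ℤ,
    V = fun ω => dv (n - (l + w)) (Yn n (t' ω) (a ω) (x ω) (Λ' ω)) := ⟨_, rfl⟩
  obtain ⟨Ul, hUl⟩ : ∃ Ul : Ω → Fin m → ℤ,
    Ul = fun ω => dv (n - l) (Yn n (t ω) (a ω) (x ω) (Λ ω)) := ⟨_, rfl⟩
  obtain ⟨Vl, hVl⟩ : ∃ Vl : Ω → Fin m → ℤ,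
    Vl = fun ω => dv (n - l) (Yn n (t' ω) (a ω) (x ω) (Λ' ω)) := ⟨_, rfl⟩
  obtain ⟨E, hE⟩ : ∃ E : ℝ, E = CH μ (fun ω => cel (l + w) (x ω)) (fun ω => (cel l (x ω), Z ω)) -
    γ * w := ⟨_, rfl⟩
  have eU' : CH μ U (fun ω => (Ul ω, Q ω, Z ω)) ≤ E + s := by rw [hU, hUl, hE]; exact eU
  have eV' : CH μ V (fun ω => (Vl ω, Q ω, Z ω)) ≤ E + s := by rw [hV, hVl, hE]; exact eV
  have eL' : E - s ≤ CH μ U (fun ω => ((Q ω, Λ ω, Λ' ω), xi l (a ω) (x ω), Z ω)) := by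
    rw [hU, hE]; exact eL
  clear eU eV eL
  -- floors
  have f1 := hFLO m n l w Ω κ μ Q a x t t' Λ Λ' hμ H.s.ms hJ H.s.ab H.s.xb H.d H.c H.s.tb
  have f2 := hFLO m n l w Ω κ μ Q a x t' t Λ' Λ hμ H.s.ms hJ H.s.ab H.s.xb
    (fun ω ω' a1 a2 e => by
      have := hdt ω ω' a1 a2 e
      simp only [Prod.mk.injEq]
      exact ⟨this.2, this.1⟩)
    (fun ω h => by rw [abs_sub_comm]; exact H.c ω h) H.s'.tb
  have g1 : CH μ (fun ω => V ω - U ω) (fun ω => ((Q ω, Λ ω, Λ' ω), xi l (a ω) (x ω), Z ω)) ≤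
      4 * m := by
    refine le_trans (cond h2 hμ _ _ _ ?_) (by rw [hU, hV]; exact f1.1)
    intro ω ω' _ _ e
    simp only [Prod.mk.injEq] at e ⊢
    obtain ⟨⟨e1, e2, e3⟩, e4, e5⟩ := e
    rw [e1, e2, e3, e4]
    simp
  have g2 : CH μ Ul (fun ω => ((Q ω, Λ ω, Λ' ω), xi l (a ω) (x ω), Z ω)) ≤ 3 * m := by
    refine le_trans (cond h2 hμ _ _ _ ?_) (by rw [hUl]; exact f1.2.1)
    intro ω ω' _ _ e
    simp only [Prod.mk.injEq] at e ⊢
    obtain ⟨⟨e1, e2, e3⟩, e4, e5⟩ := e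
    rw [e1, e2, e4]
    simp
  have g3 : CH μ Vl (fun ω => ((Q ω, Λ ω, Λ' ω), xi l (a ω) (x ω), Z ω)) ≤ 3 * m := by
    refine le_trans (cond h2 hμ _ _ _ ?_) (by rw [hVl]; exact f2.2.1)
    intro ω ω' _ _ e
    simp only [Prod.mk.injEq] at e ⊢
    obtain ⟨⟨e1, e2, e3⟩, e4, e5⟩ := e
    rw [e1, e3, e4]
    simp
  -- the variables T and c0
  obtain ⟨c0, hc0⟩ : ∃ c0 : Ω → ((Fin m → ℤ) × (Fin m → ℤ)) × κ × ζ,
    c0 = fun ω => ((Ul ω, Vl ω), Q ω, Z ω) := ⟨_, rfl⟩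
  obtain ⟨T, hT⟩ : ∃ T : Ω → ((Fin m → ℤ) × (Fin m → ℤ)) × ((Fin m → ℤ) × (Fin m → ℤ)) × (Fin m → ℤ),
    T = fun ω => ((dv (n - (l + w)) (Λ ω), dv (n - (l + w)) (Λ' ω)), xi l (a ω) (x ω),
      V ω - U ω) := ⟨_, rfl⟩
  have g4 : CH μ (fun ω => ((V ω - U ω), Ul ω, Vl ω))
      (fun ω => ((Q ω, Λ ω, Λ' ω), xi l (a ω) (x ω), Z ω)) ≤ 10 * m := by
    have k1 := pair_le h1 hμ (fun ω => V ω - U ω) (fun ω => (Ul ω, Vl ω))
      (fun ω => ((Q ω, Λ ω, Λ' ω), xi l (a ω) (x ω), Z ω))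
    have k2 := pair_le h1 hμ Ul Vl (fun ω => ((Q ω, Λ ω, Λ' ω), xi l (a ω) (x ω), Z ω))
    linarith
  have hTc : Dep μ (fun ω => (((V ω - U ω), Ul ω, Vl ω), (Q ω, Λ ω, Λ' ω), xi l (a ω) (x ω), Z ω))
      (fun ω => (T ω, c0 ω)) := by
    intro ω ω' _ _ e
    rw [hT, hc0]
    simp only [Prod.mk.injEq] at e ⊢
    obtain ⟨⟨e1, e2, e3⟩, ⟨e4, e5, e6⟩, e7, e8⟩ := e
    rw [e1, e2, e3, e4, e5, e6, e7, e8]
    simp
  -- (a)
  have a1 : CH μ U c0 ≤ E + s := by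
    refine le_trans (cond h2 hμ _ _ _ ?_) eU'
    intro ω ω' _ _ e
    rw [hc0] at e
    simp only [Prod.mk.injEq] at e ⊢
    tauto
  have a2 : CH μ V c0 ≤ E + s := by
    refine le_trans (cond h2 hμ _ _ _ ?_) eV'
    intro ω ω' _ _ e
    rw [hc0] at e
    simp only [Prod.mk.injEq] at e ⊢
    tauto
  -- (b)
  have b1 : MI μ U T c0 ≤ 2 * s + 10 * m := by
    have k1 : CH μ U (fun ω => (((V ω - U ω), Ul ω, Vl ω), (Q ω, Λ ω, Λ' ω), xi l (a ω) (x ω), Z ω))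
        ≤ CH μ U (fun ω => (T ω, c0 ω)) := cond h2 hμ _ _ _ hTc
    have k2 := mi_le h1 h2 hμ U (fun ω => ((V ω - U ω), Ul ω, Vl ω))
      (fun ω => ((Q ω, Λ ω, Λ' ω), xi l (a ω) (x ω), Z ω))
    unfold MI at k2 ⊢
    linarith
  -- (c)
  obtain ⟨Ω', ft, μ', π, A', hμ', hp, hs, p1, p2, p3⟩ := hCPL Ω (Fin m → ℤ) _ _ μ U V
    (fun ω => V ω - U ω) T c0 hμ (fun ω => by abel) (by
      intro ω ω' _ _ e
      rw [hT] at e
      simp only [Prod.mk.injEq] at e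
      exact e.2.2)
  have hHS : HS m n ηN μ' (fun w => Z (π w)) (fun w => a (π w)) (fun w => x (π w))
      (fun w => t (π w)) :=
    hs_mono m n η ηN hη _ _ _ _ _ (hs_push h5 m n η μ μ' π hμ' hp Z a x t H.s)
  -- equivalence of the conditions
  have q1 : Dep μ' (fun w => ((T (π w), c0 (π w)), t (π w), xi l (a (π w)) (x (π w)), Z (π w)))
      (fun w => (T (π w), c0 (π w))) := by
    intro w w' _ _ e
    simp only [Prod.mk.injEq] at e ⊢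
    exact e.1
  have q2 : Dep μ' (fun w => (T (π w), c0 (π w)))
      (fun w => ((T (π w), c0 (π w)), t (π w), xi l (a (π w)) (x (π w)), Z (π w))) := by
    intro w w' b1 b2 e
    simp only [Prod.mk.injEq] at e ⊢
    have e1 := e.1
    have e2 := e.2
    rw [hT] at e1
    rw [hc0] at e2
    simp only [Prod.mk.injEq] at e1 e2
    exact ⟨e, (hdt _ _ (hs w b1) (hs w' b2) e2.2.1).1, e1.2.1, e2.2.2⟩
  -- (c1)
  have c1 : MI μ' (fun w => (a (π w), x (π w))) (fun w => ((T (π w), c0 (π w)), A' w))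
      (fun w => (t (π w), xi l (a (π w)) (x (π w)), Z (π w))) ≤ ηN * n := by
    rw [mi_chain h2 hμ']
    have k1 : MI μ' (fun w => (a (π w), x (π w))) (fun w => (T (π w), c0 (π w)))
        (fun w => (t (π w), xi l (a (π w)) (x (π w)), Z (π w))) =
        MI μ (fun ω => (a ω, x ω)) (fun ω => (T ω, c0 ω))
          (fun ω => (t ω, xi l (a ω) (x ω), Z ω)) :=
      mi_push h5 μ μ' π hμ' hp (fun ω => (a ω, x ω)) (fun ω => (T ω, c0 ω))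
          (fun ω => (t ω, xi l (a ω) (x ω), Z ω))
    have k2 : MI μ' (fun w => (a (π w), x (π w))) A'
        (fun w => ((T (π w), c0 (π w)), t (π w), xi l (a (π w)) (x (π w)), Z (π w))) ≤
        2 * s + 10 * m := by
      rw [mi_condeq h2 hμ' _ _ _ _ q1 q2]
      exact (p2 _ (fun ω => (a ω, x ω))).trans b1
    have k3 : MI μ (fun ω => (a ω, x ω)) (fun ω => (T ω, c0 ω))
          (fun ω => (t ω, xi l (a ω) (x ω), Z ω)) ≤
        MI μ (fun ω => (a ω, x ω)) (fun ω => ((Q ω, Λ ω, Λ' ω), ((V ω - U ω), Ul ω, Vl ω)))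
          (fun ω => (t ω, xi l (a ω) (x ω), Z ω)) := by
      apply mi_mono h2 hμ
      intro ω ω' b1 b2 e
      apply hTc ω ω' b1 b2
      simp only [Prod.mk.injEq] at e ⊢
      tauto
    have k6 := mi_chain h2 hμ (fun ω => (a ω, x ω)) (fun ω => (Q ω, Λ ω, Λ' ω))
      (fun ω => ((V ω - U ω), Ul ω, Vl ω)) (fun ω => (t ω, xi l (a ω) (x ω), Z ω))
    have k4 : MI μ (fun ω => (a ω, x ω)) (fun ω => ((V ω - U ω), Ul ω, Vl ω))
        (fun ω => ((Q ω, Λ ω, Λ' ω), t ω, xi l (a ω) (x ω), Z ω)) ≤ 10 * m := by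
      refine (mi_le h1 h2 hμ _ _ _).trans (le_trans (cond h2 hμ _ _ _ ?_) g4)
      intro ω ω' _ _ e
      simp only [Prod.mk.injEq] at e ⊢
      tauto
    have k5 : MI μ (fun ω => (a ω, x ω)) (fun ω => (Q ω, Λ ω, Λ' ω))
        (fun ω => (t ω, xi l (a ω) (x ω), Z ω)) ≤ η * n := by
      have r1 : MI μ (fun ω => (a ω, x ω)) (fun ω => (Q ω, Λ ω, Λ' ω))
          (fun ω => (t ω, xi l (a ω) (x ω), Z ω)) =
          MI μ (fun ω => (a ω, x ω)) (fun ω => (Q ω, Λ ω, Λ' ω))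
          (fun ω => (xi l (a ω) (x ω), (t ω, Z ω))) := by
        apply mi_condeq h2 hμ
        · intro ω ω' _ _ e
          simp only [Prod.mk.injEq] at e ⊢
          tauto
        · intro ω ω' _ _ e
          simp only [Prod.mk.injEq] at e ⊢
          tauto
      have r2 := mi_fun h1 h2 hμ (fun ω => (a ω, x ω)) (fun ω => xi l (a ω) (x ω))
        (fun ω => (Q ω, Λ ω, Λ' ω)) (fun ω => (t ω, Z ω)) (by
          intro ω ω' _ _ e
          simp only [Prod.mk.injEq] at e ⊢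
          rw [e.1, e.2])
      have r3 : MI μ (fun ω => (a ω, x ω)) (fun ω => (Q ω, Λ ω, Λ' ω)) (fun ω => (t ω, Z ω)) ≤
          MI μ (fun ω => (a ω, x ω)) (fun ω => (Q ω, Λ ω, Λ' ω)) Z := by
        have s1 := mi_chain h2 hμ (fun ω => (a ω, x ω)) t (fun ω => (Q ω, Λ ω, Λ' ω)) Z
        have s2 := mi_nonneg h1 hμ (fun ω => (a ω, x ω)) t Z
        have s3 : MI μ (fun ω => (a ω, x ω)) (fun ω => (t ω, (Q ω, Λ ω, Λ' ω))) Z ≤
            MI μ (fun ω => (a ω, x ω)) (fun ω => (Q ω, Λ ω, Λ' ω)) Z := by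
          apply mi_mono h2 hμ
          intro ω ω' b1 b2 e
          simp only [Prod.mk.injEq] at e ⊢
          exact ⟨(hdt ω ω' b1 b2 e.1.1).1, e.1⟩
        linarith
      have := H.i
      linarith
    rw [k1]
    linarith
  -- (c2)
  have f3 := hFLO m n l w Ω' κ μ' (fun w => Q (π w)) (fun w => a (π w)) (fun w => x (π w))
    (fun w => t (π w)) (fun w => t' (π w)) (fun w => Λ (π w)) (fun w => Λ' (π w)) hμ' hHS.ms hJ
    hHS.ab hHS.xb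
    (fun w w' b1 b2 e => H.d _ _ (hs w b1) (hs w' b2) e)
    (fun w h => H.c _ (hs w h)) (fun w => H.s.tb _)
  have c2 : CH μ' (fun v => Yn (l + w) (t (π v)) (a (π v)) (x (π v)) (A' v))
      (fun w => ((T (π w), c0 (π w)), t (π w), xi l (a (π w)) (x (π w)), Z (π w))) ≤
      CH μ' (fun v => cel (l + w) (x (π v))) (fun w => (cel l (x (π w)), Z (π w))) -
        γ * w + ηN * n := by
    have k1 := f3.2.2.2 _ (fun w => ((T (π w), c0 (π w)), t (π w), xi l (a (π w)) (x (π w)), Z (π w)))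
      A' (by
        intro w w' _ _ e
        simp only [Prod.mk.injEq] at e
        have e1 := e.1.1
        rw [hT] at e1
        simp only [Prod.mk.injEq] at e1
        exact e1.1.1)
    have k2 : CH μ' (fun v => dv (n - (l + w)) (Yn n (t (π v)) (a (π v)) (x (π v)) (Λ (π v))) + A' v)
        (fun w => ((T (π w), c0 (π w)), t (π w), xi l (a (π w)) (x (π w)), Z (π w))) ≤
        CH μ' (fun v => U (π v) + A' v) (fun w => c0 (π w)) := by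
      rw [hU]
      apply cond h2 hμ'
      intro w w' _ _ e
      simp only [Prod.mk.injEq] at e
      exact e.1.2
    have k3 : CH μ' (fun v => cel (l + w) (x (π v))) (fun w => (cel l (x (π w)), Z (π w))) =
        CH μ (fun ω => cel (l + w) (x ω)) (fun ω => (cel l (x ω), Z ω)) :=
      ch_push h5 μ μ' π hμ' hp (fun ω => cel (l + w) (x ω)) (fun ω => (cel l (x ω), Z ω))
    rw [k3]
    rw [p1] at k2
    linarith
  have c3 := hW Ω' ζ _ μ' (fun w => Z (π w)) (fun w => a (π w)) (fun w => x (π w))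
    (fun w => t (π w)) (fun w => (T (π w), c0 (π w))) A' hHS c1 c2
  -- (d)
  have d1 : CH μ (fun ω => V ω - U ω) c0 ≤ B + (2 * s + 10 * m) := by
    have k1 : CH μ' A' (fun w => (T (π w), c0 (π w))) =
        CH μ' A' (fun w => ((T (π w), c0 (π w)), t (π w), xi l (a (π w)) (x (π w)), Z (π w))) :=
      condeq h2 hμ' _ _ _ q2 q1
    linarith
  have d2 : CH μ V (fun ω => (U ω, c0 ω)) ≤ CH μ (fun ω => V ω - U ω) (fun ω => (U ω, c0 ω)) := by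
    apply dep h2 hμ
    intro ω ω' _ _ e
    simp only [Prod.mk.injEq] at e
    have e1 : V ω - U ω = V ω' - U ω' := e.1
    have e2 : U ω = U ω' := e.2.1
    rw [e2] at e1
    exact sub_left_injective e1
  have d3 := (h1 Ω _ _ _ μ (fun ω => V ω - U ω) U c0 hμ).2.2
  have d4 : CH μ V (fun ω => (U ω, c0 ω)) ≤ B + (2 * s + 10 * m) := by linarith
  rw [hc0, hU, hV, hUl, hVl] at d4
  exact d4

theorem st_TWW (hLOW : ST_LOW) (hUPW : ST_UPW) (hCPL : ST_CPL) (hFLO : ST_FLO) (h1 : ST_E1)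
    (h2 : ST_E2) (h5 : ST_E5) : ST_TWW := by
  intro m M γ ν hM hL hN ε hε
  have hM0 : (0 : ℝ) < M := by exact_mod_cast hM
  obtain ⟨ηN, hηN, nN, hNN⟩ := hN (ε / 2) (1 / (2 * M)) (by positivity) (by positivity)
  obtain ⟨ε1, he1⟩ : ∃ ε1 : ℝ, ε1 = min (ε / (16 * M)) (ηN / 8) := ⟨_, rfl⟩
  have hε1 : 0 < ε1 := by rw [he1]; positivity
  have hε1a : ε1 ≤ ε / (16 * M) := by rw [he1]; exact min_le_left _ _
  have hε1b : ε1 ≤ ηN / 8 := by rw [he1]; exact min_le_right _ _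
  obtain ⟨ηL, hηL, nL, hLL⟩ := hLOW m M γ hM hL ε1 hε1
  obtain ⟨ηU, hηU, nU, hUU⟩ := hUPW m M γ hM hL ε1 hε1
  obtain ⟨n3, hn3⟩ := exists_nat_ge (80 * m * M / ε)
  obtain ⟨n4, hn4⟩ := exists_nat_ge (40 * m / ηN)
  refine ⟨min (ηN / 8) (min ηL ηU), by positivity, nN + nL + nU + n3 + n4 + M, ?_⟩
  intro n hn Ω ζ κ _ μ Z Q a x t t' Λ Λ' H i hi
  have q0 : min (ηN / 8) (min ηL ηU) ≤ ηN / 8 := min_le_left _ _
  have q1 : min (ηN / 8) (min ηL ηU) ≤ ηL := (min_le_right _ _).trans (min_le_left _ _)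
  have q2 : min (ηN / 8) (min ηL ηU) ≤ ηU := (min_le_right _ _).trans (min_le_right _ _)
  generalize min (ηN / 8) (min ηL ηU) = η at *
  have hμ := H.s.nn
  have hn0 : (0 : ℝ) ≤ n := Nat.cast_nonneg _
  have hdt : ∀ ω ω', μ ω ≠ 0 → μ ω' ≠ 0 → Q ω = Q ω' → t ω = t ω' ∧ t' ω = t' ω' := by
    intro ω ω' a1 a2 e
    have := H.d ω ω' a1 a2 e
    simpa only [Prod.mk.injEq] using this
  have hw1 : M * (n / M) ≤ n := Nat.mul_div_le n M
  have hw2 : n ≤ 2 * M * (n / M) := by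
    have e1 : n < M * (n / M + 1) := Nat.lt_mul_div_succ n hM
    have e2 : 1 ≤ n / M := (Nat.one_le_div_iff hM).2 (by omega)
    nlinarith
  have hw3 : (i + 1) * (n / M) ≤ n := le_trans (Nat.mul_le_mul_right _ hi) hw1
  have hw2' : (n : ℝ) ≤ 2 * M * (n / M : ℕ) := by exact_mod_cast hw2
  have hJ : (i + 1) * (n / M) = i * (n / M) + n / M := by ring
  have iL := hLL n (by omega) Ω ζ (κ × (Fin m → ℤ) × (Fin m → ℤ)) μ Z (fun ω => (Q ω, Λ ω, Λ' ω)) a x t Λ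
    (hs_mono m n η ηL q1 _ _ _ _ _ H.s)
    (by
      intro ω ω' b1 b2 e
      simp only [Prod.mk.injEq] at e
      exact (hdt ω ω' b1 b2 e.1).1)
    (by
      intro ω ω' b1 b2 e
      simp only [Prod.mk.injEq] at e
      exact e.2.1)
    (H.i.trans (mul_le_mul_of_nonneg_right q1 hn0)) i hi
  have iU := (hUU n (by omega) Ω ζ κ μ Z Q a x t Λ (hs_mono m n η ηU q2 _ _ _ _ _ H.s)
    (fun ω ω' b1 b2 e => (hdt ω ω' b1 b2 e).1)
    (by
      refine le_trans (mi_mono h2 hμ _ _ _ _ ?_) (H.i.trans (mul_le_mul_of_nonneg_right q2 hn0))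
      intro ω ω' b1 b2 e
      simp only [Prod.mk.injEq] at e ⊢
      exact ⟨e.1.1, e.1.2.1⟩)
    (by
      have := H.y
      nlinarith)).2 i hi
  have iV := (hUU n (by omega) Ω ζ κ μ Z Q a x t' Λ' (hs_mono m n η ηU q2 _ _ _ _ _ H.s')
    (fun ω ω' b1 b2 e => (hdt ω ω' b1 b2 e).2)
    (by
      refine le_trans (mi_mono h2 hμ _ _ _ _ ?_) (H.i.trans (mul_le_mul_of_nonneg_right q2 hn0))
      intro ω ω' b1 b2 e
      simp only [Prod.mk.injEq] at e ⊢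
      exact ⟨e.1.1, e.1.2.2⟩)
    (by
      have := H.y'
      nlinarith)).2 i hi
  rw [hJ] at iL iU iV hw3 ⊢
  have hn3' : 80 * (m : ℝ) * M / ε ≤ n := by
    refine hn3.trans ?_
    exact_mod_cast (by omega : n3 ≤ n)
  have hn4' : 40 * (m : ℝ) / ηN ≤ n := by
    refine hn4.trans ?_
    exact_mod_cast (by omega : n4 ≤ n)
  rw [div_le_iff₀ hε] at hn3'
  rw [div_le_iff₀ hηN] at hn4'
  have hfin := core h1 h2 h5 hCPL hFLO m n (i * (n / M)) (n / M) γ η ηN (ε1 * n)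
    ((ν + ε / 2) * (n / M : ℕ)) Ω ζ κ μ Z Q a x t t' Λ Λ' hw3 H iU iV iL (by linarith)
    (by nlinarith) (by nlinarith)
    (by
      intro Ω ζ θ _ μ Z a x t Θ A k1 k2 k3
      exact hNN n (by omega) Ω ζ θ μ Z a x t Θ A k1 (i * (n / M)) (n / M) hw3 (by
        rw [div_mul_eq_mul_div, one_mul, div_le_iff₀ (by positivity)]
        linarith) k2 k3)
  refine hfin.trans ?_
  have r1 : 2 * (ε1 * n) ≤ ε / 4 * (n / M : ℕ) := by
    have : ε1 * n ≤ ε / (16 * M) * (2 * M * (n / M : ℕ)) :=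
      mul_le_mul hε1a hw2' hn0 (by positivity)
    have e : ε / (16 * M) * (2 * M * ((n / M : ℕ) : ℝ)) = ε / 8 * (n / M : ℕ) := by
      field_simp
      ring
    rw [e] at this
    linarith
  have r2 : 10 * (m : ℝ) ≤ ε / 4 * (n / M : ℕ) := by
    have e1 : 80 * (m : ℝ) * M ≤ 2 * M * (n / M : ℕ) * ε :=
      hn3'.trans (mul_le_mul_of_nonneg_right hw2' hε.le)
    have e2 : (M : ℝ) * (40 * m) ≤ M * (ε * (n / M : ℕ)) := by linarith
    have e3 := le_of_mul_le_mul_left e2 hM0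
    linarith
  linarith

end Pool.Agent.Helper72.HK
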